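import Pool.Agent.H24Stark.Main

/-!
# The Stark-Tate conjecture for real quadratic ray class fields: the units as limits of sums over primes

Let `K` be a real quadratic field with real embeddings `σ₁, σ₂`, `𝔪 ≠ 0, 𝓞_K` an ideal, `G` the ray class group
of modulus `𝔪∞₂`, `H` the ray class field, `Art` the Artin isomorphism and `ζ(s, B)`, `B ∈ G`, the partial zeta
functions.  Conditions 1 and 2 of Stark(K, 𝔪) say that for an `ε ∈ H^×` (`ε = ε_1`, the other units being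
`ε_B = Art(B)(ε)`)

`Art(B)(ε) = exp(-2 ζ'(0, B))` for all `B ∈ G`,

where `H` is regarded as a subfield of `ℝ` by a real embedding `ι` above `σ₁`.  The right hand sides are defined
by analytic continuation.  We show that this is an explicit statement on prime ideals.  Let `γ > π/2`, and for a
character `χ` of `G` and `X > 1`, with `u = k log N𝔭 / log X` in the exponent,

`W_χ(X) = ∑_{𝔭 ∤ 𝔪} ∑_{k ≥ 1} χ(𝔭)^k / k · e^{iγu} / Γ(1 + u)`,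
`E_B(X) = |G|⁻¹ ∑_χ χ(B)⁻¹ exp W_χ(X)`,  `Λ_γ = ∫_0^∞ (e^{-t} - e^{iγt}/Γ(1+t)) dt/t`.

For every `ε ∈ H`:

1. `ζ(0, B) = 0` and `Art(B)(ε) = exp(-2 ζ'(0, B))` for all `B` if and only if all `Art(B)(ε)` are positive and
   `(log X) E_B(X) → -e^{Λ_γ} (log Art(B)(ε))/2` for `X → ∞`, for all `B`;

2. in this case `exp(-2 e^{-Λ_γ} (log X) E_B(X)) = Art(B)(ε) + O(1/log X)`.

3. So Q1 for `(K, 𝔪)` holds if and only if there is a unit `ε` of `H` with the limits in 1, with condition 3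
   (`OnUnitCircle`) and with the square root condition (`AbelianRoot`).

(`ζ(0, B) = 0` always holds, since `∞₁` splits completely in `H`.)  Nothing is assumed on the zeros of the
`L`-functions; of the continuation only the meromorphic continuation of the `ζ(s, B)` to the points of the real
interval `[0, 1]` is used.

The law for partial zeta functions is `Pool.Agent.V11288.LZ.partial_main`; for the numbers `exp(-2ζ'(0, B))`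
without the ray class field see `MP_343f43_nt.StarkNumbersByPrimes`.
-/

set_option autoImplicit false

namespace Pool.Agent.Results.MP_1ef7cf_nt.StarkUnitsByPrimes

open Filter Topology Set NumberField IsDedekindDomain

variable {K H : Type} [Field K] [NumberField K] [Field H] [NumberField H] [Algebra K H]
  {G : Type} [CommGroup G]

/-- `𝔞` is nonzero and prime to `𝔪`. -/
def PrimeTo (𝔪 𝔞 : Ideal (𝓞 K)) : Prop :=
  𝔞 ≠ 0 ∧ ∀ v : HeightOneSpectrum (𝓞 K), v.asIdeal ∣ 𝔪 → ¬ v.asIdeal ∣ 𝔞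

/-- `G` is the ray class group of modulus `𝔪∞₂`, `∞₂` the real embedding `σ`, and `cls 𝔞` the class of `𝔞`: it
is multiplicative, surjective, and `cls 𝔞 = cls 𝔟` iff `α𝔞 = β𝔟` for some `α, β ∈ 𝓞_K` prime to `𝔪` with
`α ≡ β` modulo `𝔪` and `σ(α)σ(β) > 0`. -/
structure IsRayClass (𝔪 : Ideal (𝓞 K)) (σ : K →+* ℝ) (cls : Ideal (𝓞 K) → G) : Prop where
  mul : ∀ 𝔞 𝔟, PrimeTo 𝔪 𝔞 → PrimeTo 𝔪 𝔟 → cls (𝔞 * 𝔟) = cls 𝔞 * cls 𝔟
  surj : ∀ b : G, ∃ 𝔞, PrimeTo 𝔪 𝔞 ∧ cls 𝔞 = b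
  eq_iff : ∀ 𝔞 𝔟, PrimeTo 𝔪 𝔞 → PrimeTo 𝔪 𝔟 → (cls 𝔞 = cls 𝔟 ↔
    ∃ α β : 𝓞 K, PrimeTo 𝔪 (Ideal.span {α}) ∧ PrimeTo 𝔪 (Ideal.span {β}) ∧ α - β ∈ 𝔪 ∧
      0 < σ α * σ β ∧ Ideal.span {α} * 𝔞 = Ideal.span {β} * 𝔟)

/-- `g` is the Frobenius automorphism of a prime `Q` of `H` above `v`: `g(x) ≡ x^(N v)` modulo `Q`. -/
def IsFrobenius (v : HeightOneSpectrum (𝓞 K)) (g : H ≃ₐ[K] H) : Prop :=
  ∃ Q : Ideal (𝓞 H), Q.IsPrime ∧ Q.comap (algebraMap (𝓞 K) (𝓞 H)) = v.asIdeal ∧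
    ∀ x y : 𝓞 H, (y : H) = g (x : H) → y - x ^ Ideal.absNorm v.asIdeal ∈ Q

/-- `H` is the ray class field of modulus `𝔪∞₂` and `rec` the Artin isomorphism: the primes not dividing `𝔪` are
unramified in `H`, and `rec B` is the Frobenius automorphism for every prime in the class `B`. -/
structure IsRayClassField (𝔪 : Ideal (𝓞 K)) (cls : Ideal (𝓞 K) → G)
    (rec : G ≃* (H ≃ₐ[K] H)) : Prop where
  unramified : ∀ v : HeightOneSpectrum (𝓞 K), ¬ v.asIdeal ∣ 𝔪 →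
    Squarefree (v.asIdeal.map (algebraMap (𝓞 K) (𝓞 H)))
  frobenius : ∀ v : HeightOneSpectrum (𝓞 K), ¬ v.asIdeal ∣ 𝔪 → IsFrobenius v (rec (cls v.asIdeal))

/-- `Z(s) = ζ(s, b)`: it is the sum of `N𝔞^{-s}` over the integral ideals `𝔞 ∈ b` for `Re s > 1`, and is
meromorphic at the points of the real interval `[0, 1]`. -/
structure IsPartialZeta (𝔪 : Ideal (𝓞 K)) (cls : Ideal (𝓞 K) → G) (b : G) (Z : ℂ → ℂ) : Prop where
  mero : ∀ x ∈ Icc (0 : ℝ) 1, MeromorphicAt Z (x : ℂ)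
  sum : ∀ s : ℂ, 1 < s.re → Z s =
    ∑' 𝔞 : {𝔞 : Ideal (𝓞 K) // PrimeTo 𝔪 𝔞 ∧ cls 𝔞 = b}, ((Ideal.absNorm 𝔞.1 : ℕ) : ℂ) ^ (-s)

/-- The weight `e^{iγu} / Γ(1 + u)`. -/
noncomputable def weight (γ u : ℝ) : ℂ :=
  Complex.exp ((γ * u : ℝ) * Complex.I) / (Real.Gamma (1 + u) : ℂ)

/-- The term of `W_χ(X)` at `(𝔭, k)`. -/
noncomputable def term (cls : Ideal (𝓞 K) → G) (χ : G →* ℂˣ) (γ X : ℝ)
    (v : HeightOneSpectrum (𝓞 K)) (k : ℕ) : ℂ :=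
  ((χ (cls v.asIdeal) : ℂˣ) : ℂ) ^ k / k *
    weight γ (k * Real.log (Ideal.absNorm v.asIdeal) / Real.log X)

/-- `W_χ(X)`, the sum over the primes not dividing `𝔪` and `k ≥ 1` (here `k = x.2 + 1`). -/
noncomputable def W (𝔪 : Ideal (𝓞 K)) (cls : Ideal (𝓞 K) → G) (χ : G →* ℂˣ) (γ X : ℝ) : ℂ :=
  ∑' x : {v : HeightOneSpectrum (𝓞 K) // ¬ v.asIdeal ∣ 𝔪} × ℕ, term cls χ γ X x.1.1 (x.2 + 1)

/-- `E_b(X) = |G|⁻¹ ∑_χ χ(b⁻¹) exp W_χ(X)`. -/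
noncomputable def E (𝔪 : Ideal (𝓞 K)) (cls : Ideal (𝓞 K) → G) (γ X : ℝ) (b : G) : ℂ :=
  (∑ᶠ χ : G →* ℂˣ, ((χ b⁻¹ : ℂˣ) : ℂ) * Complex.exp (W 𝔪 cls χ γ X)) / Nat.card G

/-- `Λ_γ = ∫_0^∞ (e^{-t} - e^{iγt} / Γ(1 + t)) dt / t`. -/
noncomputable def Lam (γ : ℝ) : ℂ := ∫ t in Ioi (0 : ℝ),
  (Complex.exp (-(t : ℂ)) - Complex.exp ((γ * t : ℝ) * Complex.I) * ((Real.Gamma (1 + t))⁻¹ : ℝ)) / t

/-- `Z(0) = 0` and `Z'(0) = z`: `Z(s)/s → z` for `s → 0`. -/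
def HasDerivZero (Z : ℂ → ℂ) (z : ℂ) : Prop := Tendsto (fun s : ℂ => Z s / s) (𝓝[≠] 0) (𝓝 z)

/-- Conditions 1 and 2 of Stark(K, 𝔪) for `ε` in `H` (embedded by `ι` in `ℝ`): `ζ(0, B) = 0` and
`Art(B)(ε) = exp(-2 ζ'(0, B))` for all `B`. -/
def StarkIdentities (rec : G ≃* (H ≃ₐ[K] H)) (Z : G → ℂ → ℂ) (ι : H →+* ℝ) (ε : H) : Prop :=
  ∀ B : G, ∃ z : ℝ, HasDerivZero (Z B) z ∧ ι (rec B ε) = Real.exp (-2 * z)

/-- All `Art(B)(ε)` are positive and `(log X) E_B(X) → -e^{Λ_γ} (log Art(B)(ε))/2` for `X → ∞`, for all `B`. -/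
def PrimeLimits (𝔪 : Ideal (𝓞 K)) (cls : Ideal (𝓞 K) → G) (rec : G ≃* (H ≃ₐ[K] H)) (ι : H →+* ℝ)
    (γ : ℝ) (ε : H) : Prop :=
  ∀ B, 0 < ι (rec B ε) ∧ Tendsto (fun X : ℝ => Real.log X * E 𝔪 cls γ X B) atTop
    (𝓝 (-(Complex.exp (Lam γ) * (Real.log (ι (rec B ε)) / 2))))

/-- Condition 3 of Stark(K, 𝔪) for the `ε_B = Art(B)(ε)`: absolute value `1` under every embedding of `H` in
`ℂ` whose restriction to `K` is `σ₂`. -/
def OnUnitCircle (rec : G ≃* (H ≃ₐ[K] H)) (σ₂ : K →+* ℝ) (ε : H) : Prop :=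
  ∀ (B : G) (g : H →+* ℂ), (∀ x : K, g (algebraMap K H x) = (σ₂ x : ℂ)) → ‖g (rec B ε)‖ = 1

/-- The square root condition of Q1 for the `ε_B = Art(B)(ε)`: `H(ε_B^{1/2})` is abelian over `K`. -/
def AbelianRoot (rec : G ≃* (H ≃ₐ[K] H)) (ε : H) : Prop :=
  ∀ (B : G) (y : AlgebraicClosure H), y ^ 2 = algebraMap H (AlgebraicClosure H) (rec B ε) →
    IsGalois K (IntermediateField.adjoin H {y}) ∧
      ∀ g h : (IntermediateField.adjoin H {y}) ≃ₐ[K] (IntermediateField.adjoin H {y}), g * h = h * g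

theorem main_aux [IsGalois K H] {σ₂ : K →+* ℝ} (𝔪 : Ideal (𝓞 K)) (cls : Ideal (𝓞 K) → G)
    (hc : IsRayClass 𝔪 σ₂ cls) (rec : G ≃* (H ≃ₐ[K] H))
    (Z : G → ℂ → ℂ) (hZ : ∀ B, IsPartialZeta 𝔪 cls B (Z B)) (ι : H →+* ℝ)
    (γ : ℝ) (hγ : Real.pi / 2 < γ) (ε : H) (hε : ∀ B, 0 < ι (rec B ε)) :
    (StarkIdentities rec Z ι ε ↔
      ∀ B, Tendsto (fun X : ℝ => Real.log X * E 𝔪 cls γ X B) atTop
        (𝓝 (-(Complex.exp (Lam γ) * (Real.log (ι (rec B ε)) / 2))))) ∧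
    (StarkIdentities rec Z ι ε →
      ∀ B, (fun X : ℝ => Complex.exp (-(2 * Complex.exp (-Lam γ) *
        (Real.log X * E 𝔪 cls γ X B))) - (ι (rec B ε) : ℝ)) =O[atTop]
          (fun X : ℝ => 1 / Real.log X)) := by
  have hfin : Finite (H ≃ₐ[K] H) := inferInstance
  have : Finite G := Finite.of_equiv _ rec.symm.toEquiv
  have h0 : StarkIdentities rec Z ι ε ↔ ∀ B, Pool.Agent.H24Stark.DerivZero (Z B)
      (-((Real.log (ι (rec B ε)) : ℂ) / ((2 : ℝ) : ℂ))) := by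
    refine forall_congr' fun B => ?_
    have h1 : (-((Real.log (ι (rec B ε)) : ℂ) / ((2 : ℝ) : ℂ))) =
        ((-(Real.log (ι (rec B ε)) / 2) : ℝ) : ℂ) := by
      rw [Complex.ofReal_neg, Complex.ofReal_div]
    rw [h1]
    constructor
    · rintro ⟨z, hz, hz2⟩
      rw [hz2, Real.log_exp, show -(-2 * z / 2) = z by ring]
      exact hz
    · intro h
      refine ⟨_, h, ?_⟩
      rw [show -2 * -(Real.log (ι (rec B ε)) / 2) = Real.log (ι (rec B ε)) by ring,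
        Real.exp_log (hε B)]
  obtain ⟨h1, h2⟩ := Pool.Agent.H24Stark.main (S := {v : HeightOneSpectrum (𝓞 K) | v.asIdeal ∣ 𝔪})
    (cls := cls) (Z := Z) (fun 𝔞 𝔟 h h' => hc.mul 𝔞 𝔟 h h') (fun g x hx => (hZ g).mero x hx)
    (fun g s hs => (hZ g).sum s hs) hγ (2 : ℝ) two_ne_zero
    (fun B => Real.log (ι (rec B ε)))
  have hE : ∀ X B, Pool.Agent.H24Stark.E {v : HeightOneSpectrum (𝓞 K) | v.asIdeal ∣ 𝔪} cls γ X B =
      E 𝔪 cls γ X B := fun X B => rfl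
  have hL : Pool.Agent.H24Stark.Lam γ = Lam γ := rfl
  simp only [hE, hL] at h1 h2
  refine ⟨h0.trans (h1.trans (forall_congr' fun B => ?_)), fun h B => ?_⟩
  · rw [Complex.ofReal_ofNat]
  · have h3 := h2 (h0.1 h) B
    refine (h3.congr_left fun X => ?_)
    rw [Real.exp_log (hε B), Complex.ofReal_ofNat]
    congr 2
    ring

/-- **The Stark units of real quadratic ray class fields as limits of sums over primes.** -/
theorem result [IsGalois K H] (_ : Module.finrank ℚ K = 2) (σ₁ σ₂ : K →+* ℝ) (_ : σ₁ ≠ σ₂)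
    (𝔪 : Ideal (𝓞 K)) (_ : 𝔪 ≠ ⊥) (_ : 𝔪 ≠ ⊤) (cls : Ideal (𝓞 K) → G)
    (hc : IsRayClass 𝔪 σ₂ cls) (rec : G ≃* (H ≃ₐ[K] H)) (_ : IsRayClassField 𝔪 cls rec)
    (Z : G → ℂ → ℂ) (hZ : ∀ B, IsPartialZeta 𝔪 cls B (Z B)) (ι : H →+* ℝ)
    (_ : ∀ x : K, ι (algebraMap K H x) = σ₁ x) (γ : ℝ) (hγ : Real.pi / 2 < γ) :
    (∀ ε : H, StarkIdentities rec Z ι ε ↔ PrimeLimits 𝔪 cls rec ι γ ε) ∧
    (∀ ε : H, StarkIdentities rec Z ι ε →
      ∀ B, (fun X : ℝ => Complex.exp (-(2 * Complex.exp (-Lam γ) *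
        (Real.log X * E 𝔪 cls γ X B))) - (ι (rec B ε) : ℝ)) =O[atTop]
          (fun X : ℝ => 1 / Real.log X)) ∧
    ((∃ ε : (𝓞 H)ˣ, StarkIdentities rec Z ι ((ε : 𝓞 H) : H) ∧
        OnUnitCircle rec σ₂ ((ε : 𝓞 H) : H) ∧ AbelianRoot rec ((ε : 𝓞 H) : H)) ↔
      ∃ ε : (𝓞 H)ˣ, PrimeLimits 𝔪 cls rec ι γ ((ε : 𝓞 H) : H) ∧
        OnUnitCircle rec σ₂ ((ε : 𝓞 H) : H) ∧ AbelianRoot rec ((ε : 𝓞 H) : H)) := by
  have hpos : ∀ ε : H, StarkIdentities rec Z ι ε → ∀ B, 0 < ι (rec B ε) := by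
    intro ε h B
    obtain ⟨z, -, hz⟩ := h B
    rw [hz]
    exact Real.exp_pos _
  have h1 : ∀ ε : H, StarkIdentities rec Z ι ε ↔ PrimeLimits 𝔪 cls rec ι γ ε := by
    intro ε
    constructor
    · intro h B
      exact ⟨hpos ε h B, (main_aux 𝔪 cls hc rec Z hZ ι γ hγ ε (hpos ε h)).1.1 h B⟩
    · intro h
      exact (main_aux 𝔪 cls hc rec Z hZ ι γ hγ ε (fun B => (h B).1)).1.2 fun B => (h B).2
  refine ⟨h1, fun ε h => (main_aux 𝔪 cls hc rec Z hZ ι γ hγ ε (hpos ε h)).2 h, ?_⟩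
  exact exists_congr fun ε => and_congr_left fun _ => h1 _

end Pool.Agent.Results.MP_1ef7cf_nt.StarkUnitsByPrimes
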